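import Pool.Agent.Y687.MQ.Fin

/-!
# The rank conjecture for the twists of `X_0(14)` over multiquadratic fields

`E_M : y² = x³ + 5805 M² x - 285714 M³` is the twist by `M` of the non-CM curve `E_1 = X_0(14)`, with
`2`-division field `ℚ(√-7)`. A discriminant `D` of any sign is `Good` if it is squarefree, `≡ 1 mod 4`,
prime to `42`, a square modulo `7`, if all its prime factors split completely in `ℚ(i, √2, √-7)` or are
inert in `ℚ(√2)` and in `ℚ(√-7)`, and if a matrix `R D` over `𝔽₂` of residue symbols is nonsingular.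
Let `K = ℚ(√d_1, …, √d_n)` be of degree `2ⁿ` and let all the numbers `M ∏_{i ∈ T} d_i` be good up to
squares. Then the rank conjecture holds for `E_M` over `K`, rank and order being `0`. Every such pair
`(E_M, K)` has infinitely many real and infinitely many imaginary quadratic extensions `K(√D)`, ramified
at new split primes, such that `(E_M, K(√D))` and `(E_{MD}, K)` are again such pairs.
-/

set_option autoImplicit false

open NumberField IsDedekindDomain

namespace Pool.Agent.Y687.Old.MultiquadraticTowers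

/-- coefficients of `E_M : y² = x³ + A M x + B M`, the twist of `X_0(14)` -/
def A (M : ℤ) : ℤ := 5805 * M ^ 2

/-- coefficients of `E_M : y² = x³ + A M x + B M`, the twist of `X_0(14)` -/
def B (M : ℤ) : ℤ := -285714 * M ^ 3

/-- number of points of `E_1 = X_0(14)` over `ZMod p`, infinity included -/
noncomputable def N (p : ℕ) : ℕ :=
  1 + Nat.card {z : ZMod p × ZMod p // z.2 ^ 2 = z.1 ^ 3 + (A 1 : ZMod p) * z.1 + (B 1 : ZMod p)}

/-- primes which split completely in `ℚ(i, √2, √-7)` -/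
def Split (p : ℕ) : Prop := p.Prime ∧ p % 8 = 1 ∧ (p % 7 = 1 ∨ p % 7 = 2 ∨ p % 7 = 4)

/-- primes inert in `ℚ(√2)` and in `ℚ(√-7)` -/
def Inert (q : ℕ) : Prop :=
  q.Prime ∧ (q % 8 = 3 ∨ q % 8 = 5) ∧ (q % 7 = 3 ∨ q % 7 = 5 ∨ q % 7 = 6)

/-- the class of discriminants -/
def Adm (D : ℤ) : Prop := Squarefree D ∧ D % 4 = 1 ∧ (D % 7 = 1 ∨ D % 7 = 2 ∨ D % 7 = 4) ∧
  ∀ p : ℕ, p.Prime → (p : ℤ) ∣ D → p ≠ 3 ∧ (Split p ∨ Inert p)

/-- the prime factors `≡ 1 mod 8` of `D` -/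
def S (D : ℤ) : Finset ℕ := D.natAbs.primeFactors.filter fun p => p % 8 = 1

open Classical in
/-- the matrix over `𝔽₂` with rows and columns indexed by `S D`: off the diagonal the
entry at `(p, p')` is `1` if `p'` is not a square modulo `p` and `0` otherwise; on the diagonal it
is the number of the prime factors of `D` different from `p` which are not squares modulo `p`, plus
`1` if the number of points of `X_0(14)` modulo `p` is not divisible by `8` -/
noncomputable def R (D : ℤ) : Matrix (S D) (S D) (ZMod 2) := Matrix.of fun i j =>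
  if i = j then
    (((D.natAbs.primeFactors.filter fun r : ℕ => r ≠ (i : ℕ) ∧
      ¬ IsSquare (r : ZMod (i : ℕ))).card : ZMod 2) + if 8 ∣ N (i : ℕ) then 0 else 1)
  else if IsSquare (((j : ℕ)) : ZMod (i : ℕ)) then 0 else 1

/-- the good discriminants -/
def Good (D : ℤ) : Prop := Adm D ∧ (R D).det ≠ 0

/-- the pairs `(M, d)` such that `ℚ(√d_1, …, √d_n)` has degree `2ⁿ` and all numbers `M ∏_{i ∈ T} d_i`
are good up to squares -/
def GoodPair {n : ℕ} (M : ℤ) (d : Fin n → ℤ) : Prop :=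
  (∀ T : Finset (Fin n), T.Nonempty → ¬ IsSquare (∏ i ∈ T, d i)) ∧
  ∀ T : Finset (Fin n), ∃ D k : ℤ, Good D ∧ k ≠ 0 ∧ M * ∏ i ∈ T, d i = D * k ^ 2

/-- `K = ℚ(√d_1, …, √d_n)` -/
def IsMultiquadratic {n : ℕ} (d : Fin n → ℤ) (K : Type) [Field K] [NumberField K] : Prop :=
  ∃ x : Fin n → K, (∀ i, x i ^ 2 = (d i : K)) ∧ IntermediateField.adjoin ℚ (Set.range x) = ⊤

/-- the group `E_M(K)` -/
abbrev EK (K : Type) [Field K] (M : ℤ) : Type :=
  WeierstrassCurve.Affine.Point (WeierstrassCurve.toAffine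
    ({ a₁ := 0, a₂ := 0, a₃ := 0, a₄ := (A M : K), a₆ := (B M : K) } : WeierstrassCurve K))

/-- the number `q_v` of elements of the residue field of a finite place `v` of `K` -/
noncomputable def qv (K : Type) [Field K] (v : HeightOneSpectrum (𝓞 K)) : ℕ :=
  Nat.card (𝓞 K ⧸ v.asIdeal)

/-- `a_v = q_v + 1 - #E_M(k_v)`, that is `q_v` minus the number of affine points -/
noncomputable def av (K : Type) [Field K] (M : ℤ) (v : HeightOneSpectrum (𝓞 K)) : ℤ :=
  (qv K v : ℤ) - Nat.card {z : (𝓞 K ⧸ v.asIdeal) × (𝓞 K ⧸ v.asIdeal) //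
    z.2 ^ 2 = z.1 ^ 3 + (A M : 𝓞 K ⧸ v.asIdeal) * z.1 + (B M : 𝓞 K ⧸ v.asIdeal)}

open Classical in
/-- `F` is entire and is, for `Re s > 3/2`, the `L`-function of `E_M` over `K` without the Euler
factors at the places `v ∣ 42 M m` -/
def IsL (K : Type) [Field K] (M m : ℤ) (F : ℂ → ℂ) : Prop :=
  Differentiable ℂ F ∧ ∀ s : ℂ, (3 : ℝ) / 2 < s.re →
    HasProd (fun v : HeightOneSpectrum (𝓞 K) =>
      if ((42 * M * m : ℤ) : 𝓞 K) ∈ v.asIdeal then 1 else
        (1 - (av K M v : ℂ) * (qv K v : ℂ) ^ (-s) + (qv K v : ℂ) ^ (1 - 2 * s))⁻¹) (F s)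

theorem result :
    (∀ (n : ℕ) (M : ℤ) (d : Fin n → ℤ), GoodPair M d → ∀ (K : Type) [Field K] [NumberField K],
      IsMultiquadratic d K →
      Module.finrank ℚ K = 2 ^ n ∧ Finite (EK K M) ∧ (∃ F : ℂ → ℂ, IsL K M (∏ i, d i) F) ∧
      ∀ F : ℂ → ℂ, IsL K M (∏ i, d i) F → F 1 ≠ 0) ∧
    ∀ (n : ℕ) (M : ℤ) (d : Fin n → ℤ), GoodPair M d → ∀ ε : ℤ, (ε = 1 ∨ ε = -1) →
      {p : ℕ | Split p ∧ ¬ (p : ℤ) ∣ M ∧ (∀ i, ¬ (p : ℤ) ∣ d i) ∧
        ∃ D : ℤ, (p : ℤ) ∣ D ∧ 0 < ε * D ∧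
          GoodPair M (Fin.snoc d D : Fin (n + 1) → ℤ) ∧ GoodPair (M * D) d}.Infinite := by
  classical
  have hN : ∀ p : ℕ, N p = Y687.NN 1 p := fun p => by
    unfold N Y687.NN Y687.cnt A B
    rw [add_comm]
    norm_num
  have hR : ∀ D : ℤ, R D = Y687.MQ.matD D := by
    intro D
    unfold R Y687.MQ.matD
    ext i j
    simp only [Matrix.of_apply, hN]
    rfl
  have hG : ∀ D : ℤ, Good D ↔ ∃ P T : Finset ℕ, Y687.MQ.Ad Y687.MQ.ClG P T ∧
      Y687.MQ.disc P T = D := by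
    intro D
    rw [← Y687.MQ.good_iff]
    unfold Good
    rw [hR]
    rfl
  have hT : ∀ {n : ℕ} (M : ℤ) (d : Fin n → ℤ), GoodPair M d ↔
      (Y687.MQ.Ind d ∧ Y687.MQ.AdT Y687.MQ.ClG M d) := by
    intro n M d
    refine and_congr Iff.rfl (forall_congr' fun T => ?_)
    constructor
    · rintro ⟨D, k, h1, hk, he⟩
      obtain ⟨P, T', h2, rfl⟩ := (hG D).1 h1
      exact ⟨P, T', k, h2, hk, he⟩
    · rintro ⟨P, T', k, h, hk, he⟩
      exact ⟨_, k, (hG _).2 ⟨P, T', h, rfl⟩, hk, he⟩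
  refine ⟨fun n M d hd K _ _ ⟨x, hx, hK⟩ => ?_, fun n M d hd ε hε => ?_⟩
  · obtain ⟨hind, h⟩ := (hT M d).1 hd
    obtain ⟨⟨F, hF, hF1⟩, hfin⟩ := Y687.MQ.field_thm (fun P T => Y687.MQ.WB_all) h hind K x hx hK
    have hL : ∀ G : ℂ → ℂ, IsL K M (∏ i, d i) G ↔
        Y19.QT.IsLFunK K (A M) (B M) (∏ i, d i) G := by
      intro G
      have key : ∀ v : HeightOneSpectrum (𝓞 K),
          (((42 * M * ∏ i, d i : ℤ) : 𝓞 K) ∈ v.asIdeal ↔
            ((2 * (4 * A M ^ 3 + 27 * B M ^ 2) * ∏ i, d i : ℤ) : 𝓞 K) ∈ v.asIdeal) := by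
        intro v
        have := v.isPrime
        constructor
        · intro h1
          have e : ((2 * (4 * A M ^ 3 + 27 * B M ^ 2) * ∏ i, d i : ℤ) : 𝓞 K) =
              ((2 ^ 14 * 3 ^ 11 * 7 ^ 2 * M ^ 5 : ℤ) : 𝓞 K) *
                ((42 * M * ∏ i, d i : ℤ) : 𝓞 K) := by
            rw [← Int.cast_mul]
            congr 1
            unfold A B
            ring
          rw [e]
          exact Ideal.mul_mem_left _ _ h1
        · intro h1
          refine Ideal.IsPrime.mem_of_pow_mem this 15 ?_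
          have e : ((42 * M * ∏ i, d i : ℤ) : 𝓞 K) ^ 15 =
              ((3 ^ 3 * 7 ^ 12 * M ^ 9 * (∏ i, d i) ^ 14 : ℤ) : 𝓞 K) *
                ((2 * (4 * A M ^ 3 + 27 * B M ^ 2) * ∏ i, d i : ℤ) : 𝓞 K) := by
            rw [← Int.cast_mul, ← Int.cast_pow]
            congr 1
            unfold A B
            ring
          rw [e]
          exact Ideal.mul_mem_left _ _ h1
      unfold IsL Y19.QT.IsLFunK
      simp only [key]
      rfl
    refine ⟨?_, hfin, ⟨F, (hL F).2 hF⟩, fun G hG => ?_⟩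
    · have := Y73.QMQ1.gal_of hx hK
      rw [← IsGalois.card_aut_eq_finrank]
      exact Y73.QMQ1.card_gal hind hx hK
    · rw [Y687.MQ.isLFunK_unique ((hL G).1 hG) hF]
      exact hF1
  · obtain ⟨hind, h⟩ := (hT M d).1 hd
    refine (h.ext2 hind hε).mono ?_
    rintro p ⟨h1, h2, h3, D, h4, h5, h6, h7⟩
    exact ⟨h1, h2, h3, D, h4, h5, (hT _ _).2 ⟨h6, h7⟩, (hT _ _).2 ⟨hind, h7.twist⟩⟩

end Pool.Agent.Y687.Old.MultiquadraticTowers
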