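import Pool.Agent.Y687.N.MatN

/-!
Weak BSD (with existence of the entire `L`-function, its nonvanishing at `1`, and finiteness of the
rational points all proved) for the NEGATIVE quadratic twists by `D = - q ∏ p` of the non-CM curve
`X_0(14) : y² = x³ + 5805 x - 285714`, where `P` is an ARBITRARY finite set of primes `p` split in
its `2`-division field `ℚ(√-7)` and in `ℚ(i, √2)`, and `q` is a prime inert in `ℚ(√-7)` and in
`ℚ(√2)`, `q ≡ 3 mod 8`, whenever the matrix over `𝔽₂` which governs the `2`-isogeny Selmer groups is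
nonsingular. For every `P` there are infinitely many such `q`.
-/

set_option autoImplicit false

open Finset

namespace Pool.Agent.Y687.Old.NegativeTwists

/-- coefficients of the twist `E_D : y² = x³ + A D x + B D` of `X_0(14)` -/
def A (D : ℤ) : ℤ := 5805 * D ^ 2

/-- coefficients of the twist `E_D : y² = x³ + A D x + B D` of `X_0(14)` -/
def B (D : ℤ) : ℤ := -285714 * D ^ 3

/-- number of points of `E_D` over `ZMod p`, the point at infinity included -/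
noncomputable def N (D : ℤ) (p : ℕ) : ℕ :=
  1 + Nat.card {z : ZMod p × ZMod p // z.2 ^ 2 = z.1 ^ 3 + (A D : ZMod p) * z.1 + (B D : ZMod p)}

/-- affine rational points of `E_D` -/
def RatPts (D : ℤ) : Set (ℚ × ℚ) := {z | z.2 ^ 2 = z.1 ^ 3 + (A D : ℚ) * z.1 + (B D : ℚ)}

/-- `f` is an entire function which equals the Euler product of `E_D` over the primes
`p ∤ 2 (4 A³ + 27 B²)` on `Re s > 3 / 2` -/
def IsL (D : ℤ) (f : ℂ → ℂ) : Prop :=
  Differentiable ℂ f ∧ ∀ s : ℂ, (3 : ℝ) / 2 < s.re →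
    HasProd
      (fun p : {p : ℕ // p.Prime ∧ ¬ ((p : ℤ) ∣ 2 * (4 * A D ^ 3 + 27 * B D ^ 2))} =>
        ((1 : ℂ) - (((p.1 : ℤ) + 1 - (N D p.1 : ℤ) : ℤ) : ℂ) * ((p.1 : ℂ) ^ (-s))
          + (p.1 : ℂ) ^ (1 - 2 * s))⁻¹)
      (f s)

/-- primes congruent to `3` modulo `8` and inert in `ℚ(√-7)` -/
def Inert (q : ℕ) : Prop := q.Prime ∧ q % 8 = 3 ∧ (q % 7 = 3 ∨ q % 7 = 5 ∨ q % 7 = 6)

/-- primes congruent to `1` modulo `8` that split in `ℚ(√-7)` -/
def Split (p : ℕ) : Prop := p.Prime ∧ p % 8 = 1 ∧ (p % 7 = 1 ∨ p % 7 = 2 ∨ p % 7 = 4)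

open Classical in
/-- the matrix over `𝔽₂` with rows and columns indexed by the primes in `P`: off the diagonal the
entry at `(p, p')` is `1` if `p'` is not a square modulo `p` and `0` otherwise; on the diagonal it
is the number of the primes in `P ∪ {q}` different from `p` which are not squares modulo `p`, plus
`1` if the number of points of `X_0(14)` modulo `p` is not divisible by `8` -/
noncomputable def R (P : Finset ℕ) (q : ℕ) : Matrix P P (ZMod 2) := Matrix.of fun i j =>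
  if i = j then
    ((((insert q P).filter fun r : ℕ => r ≠ (i : ℕ) ∧ ¬ IsSquare (r : ZMod (i : ℕ))).card :
      ZMod 2) + if 8 ∣ N 1 (i : ℕ) then 0 else 1)
  else if IsSquare (((j : ℕ)) : ZMod (i : ℕ)) then 0 else 1

theorem result (P : Finset ℕ) (hP : ∀ p ∈ P, Split p) :
    (∀ q : ℕ, Inert q → (R P q).det ≠ 0 →
      4 * A (-(q * ∏ p ∈ P, (p : ℤ))) ^ 3 + 27 * B (-(q * ∏ p ∈ P, (p : ℤ))) ^ 2 ≠ 0 ∧
      (∃ f : ℂ → ℂ, IsL (-(q * ∏ p ∈ P, (p : ℤ))) f) ∧
      (∀ f : ℂ → ℂ, IsL (-(q * ∏ p ∈ P, (p : ℤ))) f → f 1 ≠ 0) ∧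
      (RatPts (-(q * ∏ p ∈ P, (p : ℤ)))).Finite) ∧
    {q : ℕ | Inert q ∧ (R P q).det ≠ 0}.Infinite := by
  classical
  have hP' : ∀ p ∈ P, Z701.Sp p := hP
  have hN : ∀ p : ℕ, N 1 p = Y687.NN 1 p := fun p => by
    unfold N Y687.NN Y687.cnt A B
    rw [add_comm]
    norm_num
  have hR : ∀ q : ℕ, R P q = Y687.N.matN P q := by
    intro q
    unfold R Y687.N.matN
    ext i j
    simp only [Matrix.of_apply, hN]
  have hL : ∀ (D : ℤ) (f : ℂ → ℂ), IsL D f ↔ (Differentiable ℂ f ∧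
      (∀ s : ℂ, (3 : ℝ) / 2 < s.re →
        HasProd (fun l : {l : ℕ // l.Prime ∧
            ¬ ((l : ℤ) ∣ 2 * (4 * (5805 * D ^ 2) ^ 3 +
              27 * (-285714 * D ^ 3) ^ 2))} =>
          Y687.fac (5805 * D ^ 2) (-285714 * D ^ 3) s l)
          (f s))) := by
    intro D f
    unfold IsL Y687.fac
    refine and_congr Iff.rfl (forall_congr' fun s => imp_congr Iff.rfl ?_)
    have : ∀ l : ℕ, (l : ℤ) + 1 - (N D l : ℤ) = (l : ℤ) - (Nat.card {q : ZMod l × ZMod l //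
        q.2 ^ 2 = q.1 ^ 3 + ((5805 * D ^ 2 : ℤ) : ZMod l) * q.1 +
          ((-285714 * D ^ 3 : ℤ) : ZMod l)} : ℤ) := by
      intro l
      unfold N A B
      push_cast
      ring
    simp only [this]
    rfl
  refine ⟨fun q hq hdet => ?_, ?_⟩
  · have hq' : Y687.N.NegP q := hq
    rw [hR] at hdet
    have hD : ((Z700.pr P : ℤ) * (-(q : ℤ))) = -(q * ∏ p ∈ P, (p : ℤ)) := by
      unfold Z700.pr
      push_cast
      ring
    obtain ⟨⟨f, hf, hfp, hf1⟩, hfin⟩ := Y687.N.WB_q hP' hq' ((Y687.N.mat_iff hP' hq').1 hdet)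
    rw [hD] at hfp hfin
    have hM : (-(q * ∏ p ∈ P, (p : ℤ)) : ℤ) ≠ 0 := by
      refine neg_ne_zero.2 (mul_ne_zero (by exact_mod_cast hq.1.ne_zero) ?_)
      exact Finset.prod_ne_zero_iff.2 fun r hr => by exact_mod_cast (hP r hr).1.ne_zero
    refine ⟨?_, ⟨f, (hL _ f).2 ⟨hf, hfp⟩⟩, ?_, hfin⟩
    · have e : 4 * A (-(q * ∏ p ∈ P, (p : ℤ))) ^ 3 + 27 * B (-(q * ∏ p ∈ P, (p : ℤ))) ^ 2 =
          (4 * 5805 ^ 3 + 27 * 285714 ^ 2) * (-(q * ∏ p ∈ P, (p : ℤ))) ^ 6 := by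
        unfold A B
        ring
      rw [e]
      exact mul_ne_zero (by norm_num) (pow_ne_zero 6 hM)
    · intro g hg
      obtain ⟨hg1, hg2⟩ := (hL _ g).1 hg
      rw [Y687.unique_f hg1 hf hg2 hfp]
      exact hf1
  · refine (Y687.N.inf_mat hP').mono ?_
    rintro q ⟨h1, h2⟩
    exact ⟨h1, by rw [hR]; exact h2⟩

end Pool.Agent.Y687.Old.NegativeTwists
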